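import Pool.Agent.Results.MP_56119d_al.FolnerSuperexp

/-!
# A uniform quantitative lower bound for the Følner functions of the Grigorchuk groups `G_w`
-/

set_option autoImplicit false

namespace Pool.Agent.Results.MP_56119d_al.SwitchLevelBound

open scoped ENNReal
open Filter
open Pool.Agent.Results.MP_56119d_al.FolnerSuperexp

/-- the number of places `i < k` with `w i = e` -/
def cnt (w : ℕ → Fin 3) (e : Fin 3) (k : ℕ) : ℕ :=
  (Finset.univ.filter fun i : Fin k => w i = e).card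

/-- `k` is a switch to the letter `e`: `w k ≠ e` and `w (k + 1) = e` -/
def Switch (w : ℕ → Fin 3) (e : Fin 3) (k : ℕ) : Prop := w k ≠ e ∧ w (k + 1) = e

open Classical in
/-- the bound, for sets of permutations -/
theorem P_bound : ∃ K M : ℕ, 1 ≤ K ∧ ∀ (w : ℕ → Fin 3) (e : Fin 3) (k : ℕ), Switch w e k →
    ∀ F : Finset (Equiv.Perm (List Bool)), F.Nonempty →
      (K * 2 ^ k) * (F.filter fun z => ∃ s ∈ Pool.Agent.W380.Fol.gens w, z * s ∉ F).card ≤
        F.card →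
      Real.exp (2 ^ k * ((cnt w e k : ℝ) - M) / 4) ≤ F.card := by
  obtain ⟨C, hC0, hC⟩ := Pool.Agent.W380.Fol.exists_bound
  have hm : 0 < Pool.Agent.W380.Fol.mm := Fintype.card_pos
  refine ⟨128 * Pool.Agent.W380.Fol.mm ^ 2 * C, 64 * Pool.Agent.W380.Fol.mm + 3,
    Nat.one_le_iff_ne_zero.2 (by positivity), fun w e k hk F hF hfol => ?_⟩
  set m0 : ℕ := 64 * Pool.Agent.W380.Fol.mm with hm0
  have hFc : (1 : ℝ) ≤ F.card := by exact_mod_cast hF.card_pos
  rcases Nat.lt_or_ge (cnt w e k) (m0 + 3) with hlt | hge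
  · refine le_trans ?_ hFc
    rw [← Real.exp_zero]
    apply Real.exp_le_exp.mpr
    have h1 : (cnt w e k : ℝ) - ((m0 + 3 : ℕ) : ℝ) ≤ 0 := by
      have : (cnt w e k : ℝ) ≤ ((m0 + 3 : ℕ) : ℝ) := by exact_mod_cast hlt.le
      linarith
    have h2 : (0 : ℝ) ≤ 2 ^ k := by positivity
    exact div_nonpos_of_nonpos_of_nonneg (mul_nonpos_of_nonneg_of_nonpos h2 h1) (by norm_num)
  · set q : ℕ := (cnt w e k - m0) / 2 with hq
    have hpow : 64 * (2 ^ q) ^ 2 * Pool.Agent.W380.Fol.mm ≤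
        2 ^ Pool.Agent.W380.Fol.cE w e k := by
      have h1 : m0 ≤ 2 ^ m0 := Nat.lt_two_pow_self.le
      have h2 : 64 * (2 ^ q) ^ 2 * Pool.Agent.W380.Fol.mm = m0 * 2 ^ (2 * q) := by
        rw [hm0, ← pow_mul, mul_comm q 2]; ring
      have h3 : m0 + 2 * q ≤ cnt w e k := by omega
      calc 64 * (2 ^ q) ^ 2 * Pool.Agent.W380.Fol.mm = m0 * 2 ^ (2 * q) := h2
        _ ≤ 2 ^ m0 * 2 ^ (2 * q) := Nat.mul_le_mul_right _ h1
        _ = 2 ^ (m0 + 2 * q) := (pow_add _ _ _).symm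
        _ ≤ 2 ^ Pool.Agent.W380.Fol.cE w e k := Nat.pow_le_pow_right (by norm_num) h3
    have hb := Pool.Agent.W380.Fol.main_bound C hC w e k (2 ^ q) hk.1 hk.2 hpow
      (Nat.one_le_two_pow) F hF hfol
    have hF0 : (0 : ℝ) < F.card := by linarith
    have hlog2 : (0.6931471803 : ℝ) < Real.log 2 := Real.log_two_gt_d9
    have h1 : ((q : ℝ) - 1) * Real.log 2 ≤ Real.log (((2 ^ q + 1 : ℕ) : ℝ) / 2) := by
      have h2 : ((q : ℝ) - 1) * Real.log 2 = Real.log ((2 : ℝ) ^ q / 2) := by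
        rw [Real.log_div (by positivity) (by norm_num), Real.log_pow]
        ring
      rw [h2]
      apply Real.log_le_log (by positivity)
      push_cast
      linarith
    have hq2 : ((cnt w e k : ℝ) - ((m0 + 3 : ℕ) : ℝ)) / 2 ≤ (q : ℝ) - 1 := by
      have h3 : cnt w e k ≤ 2 * q + 1 + m0 := by omega
      have h4 : (cnt w e k : ℝ) ≤ 2 * q + 1 + m0 := by exact_mod_cast h3
      push_cast
      linarith
    have hx0 : 0 ≤ (cnt w e k : ℝ) - ((m0 + 3 : ℕ) : ℝ) := by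
      have : ((m0 + 3 : ℕ) : ℝ) ≤ (cnt w e k : ℝ) := by exact_mod_cast hge
      linarith
    set x : ℝ := (cnt w e k : ℝ) - ((m0 + 3 : ℕ) : ℝ) with hx
    have h5 : x / 3 ≤ Real.log (((2 ^ q + 1 : ℕ) : ℝ) / 2) := by
      have : x / 3 ≤ x / 2 * Real.log 2 := by
        have h7 : x * (1 / 3) ≤ x * (Real.log 2 / 2) :=
          mul_le_mul_of_nonneg_left (by linarith) hx0
        linarith
      have h6 : x / 2 * Real.log 2 ≤ ((q : ℝ) - 1) * Real.log 2 :=
        mul_le_mul_of_nonneg_right hq2 (by linarith)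
      linarith
    have h6 : (2 : ℝ) ^ k * x / 4 ≤ Real.log F.card := by
      have h7 : (0 : ℝ) < 3 / 4 * 2 ^ k := by positivity
      have h8 := mul_le_mul_of_nonneg_left h5 h7.le
      calc (2 : ℝ) ^ k * x / 4 = 3 / 4 * 2 ^ k * (x / 3) := by ring
        _ ≤ _ := h8
        _ ≤ _ := hb
    calc Real.exp (2 ^ k * x / 4) ≤ Real.exp (Real.log F.card) := Real.exp_le_exp.mpr h6
      _ = F.card := Real.exp_log hF0

open Classical in
/-- the passage from subsets of `G_w` to sets of permutations -/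
theorem transfer (w : ℕ → Fin 3) (F : Set (G w)) (hF : F.Finite) (hne : F.Nonempty) :
    ∃ F' : Finset (Equiv.Perm (List Bool)), F'.Nonempty ∧ F'.card = F.ncard ∧
      (F'.filter fun z => ∃ s ∈ Pool.Agent.W380.Fol.gens w, z * s ∉ F').card =
        (boundary (S w) F).ncard := by
  set F' : Finset (Equiv.Perm (List Bool)) := hF.toFinset.image Subtype.val with hF'
  have hinj : Function.Injective (Subtype.val : G w → Equiv.Perm (List Bool)) :=
    Subtype.val_injective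
  have hmem : ∀ x : G w, (x : Equiv.Perm (List Bool)) ∈ F' ↔ x ∈ F := by
    intro x
    rw [hF', Finset.mem_image]
    constructor
    · rintro ⟨y, hy, hxy⟩
      rw [← hinj hxy]
      exact hF.mem_toFinset.1 hy
    · intro hx
      exact ⟨x, hF.mem_toFinset.2 hx, rfl⟩
  have hcard : F'.card = F.ncard := by
    rw [hF', Finset.card_image_of_injective _ hinj, ← Set.ncard_eq_toFinset_card F hF]
  refine ⟨F', ?_, hcard, ?_⟩
  · obtain ⟨x, hx⟩ := hne
    exact ⟨_, (hmem x).2 hx⟩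
  · have hfin : (boundary (S w) F).Finite := hF.subset fun x hx => hx.1
    rw [Set.ncard_eq_toFinset_card _ hfin, ← Finset.card_image_of_injective _ hinj]
    congr 1
    ext z
    rw [Finset.mem_filter]
    constructor
    · rintro ⟨hz, s, hs, hzs⟩
      obtain ⟨x, hx, rfl⟩ := Finset.mem_image.1 hz
      rw [← gens_eq] at hs
      have hsG : s ∈ G w := Subgroup.subset_closure hs
      refine Finset.mem_image.2
        ⟨x, hfin.mem_toFinset.2 ⟨hF.mem_toFinset.1 hx, ⟨s, hsG⟩, hs, fun hc => hzs ?_⟩, rfl⟩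
      exact (hmem (x * ⟨s, hsG⟩)).2 hc
    · intro hz
      obtain ⟨x, hx, rfl⟩ := Finset.mem_image.1 hz
      obtain ⟨hxF, s, hs, hxs⟩ := hfin.mem_toFinset.1 hx
      refine ⟨(hmem x).2 hxF, (s : Equiv.Perm (List Bool)), ?_, fun hc => hxs ?_⟩
      · rw [← gens_eq]
        exact hs
      · exact (hmem (x * s)).1 hc

/-- a lower bound for all admissible sets is a lower bound for the Følner function -/
theorem le_Fol {H : Type} [Group H] (T : Set H) (n : ℕ) (x : ℝ)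
    (h : ∀ F : Set H, F.Finite → F.Nonempty → n * (boundary T F).ncard ≤ F.ncard →
      x ≤ F.ncard) : ENNReal.ofReal x ≤ (Fol T n : ℝ≥0∞) := by
  have h1 : ((⌈x⌉₊ : ℕ) : ℕ∞) ≤ Fol T n := by
    unfold Fol
    refine le_iInf₂ fun F hF => ?_
    have h2 := h F hF.1 hF.2.1 hF.2.2
    exact_mod_cast Nat.ceil_le.mpr h2
  have h2 : ENNReal.ofReal x ≤ ((⌈x⌉₊ : ℕ) : ℝ≥0∞) := by
    rw [← ENNReal.ofReal_natCast]
    exact ENNReal.ofReal_le_ofReal (Nat.le_ceil x)
  refine h2.trans ?_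
  have h3 := ENat.toENNReal_le.mpr h1
  simpa using h3

/-- the bound, for the Følner function -/
theorem Fol_bound : ∃ K M : ℕ, 1 ≤ K ∧ ∀ (w : ℕ → Fin 3) (e : Fin 3) (k : ℕ), Switch w e k →
    ∀ n : ℕ, K * 2 ^ k ≤ n →
    ENNReal.ofReal (Real.exp (2 ^ k * ((cnt w e k : ℝ) - M) / 4)) ≤
      (Fol (S w) n : ℝ≥0∞) := by
  classical
  obtain ⟨K, M, hK, h⟩ := P_bound
  refine ⟨K, M, hK, fun w e k hk n hn => le_Fol _ _ _ fun F hF hne hb => ?_⟩
  obtain ⟨F', hF', hcard, hbd⟩ := transfer w F hF hne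
  have h1 := h w e k hk F' hF' (by
    rw [hcard]
    refine le_trans (Nat.mul_le_mul_right _ hn) (le_trans (le_of_eq ?_) hb)
    rw [← hbd])
  rw [hcard] at h1
  exact h1

/-- switches to a letter of positive frequency give `n log n` along a sequence -/
theorem frequent (K M : ℕ) (hK : 1 ≤ K)
    (h : ∀ (w : ℕ → Fin 3) (e : Fin 3) (k : ℕ), Switch w e k → ∀ n : ℕ, K * 2 ^ k ≤ n →
      ENNReal.ofReal (Real.exp (2 ^ k * ((cnt w e k : ℝ) - M) / 4)) ≤
        (Fol (S w) n : ℝ≥0∞))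
    (w : ℕ → Fin 3) (e : Fin 3) (δ : ℝ) (hδ : 0 < δ)
    (hf : ∃ᶠ k in atTop, Switch w e k ∧ δ * (k : ℝ) ≤ (cnt w e k : ℝ)) :
    ∃ᶠ n : ℕ in atTop, ENNReal.ofReal (Real.exp (1 / (8 * K) * δ * (n * Real.log n))) ≤
      (Fol (S w) n : ℝ≥0∞) := by
  rw [frequently_atTop] at hf ⊢
  intro N
  obtain ⟨k0, hk0⟩ := exists_nat_ge ((δ * Real.log K + 2 * M) / δ)
  obtain ⟨k, hk, hsw, hd⟩ := hf (max N k0)
  have hkN : N ≤ k := (le_max_left _ _).trans hk
  have hkk0 : (k0 : ℝ) ≤ k := by exact_mod_cast (le_max_right _ _).trans hk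
  have hK1 : (1 : ℝ) ≤ K := by exact_mod_cast hK
  have hK0 : (0 : ℝ) < K := by linarith
  refine ⟨K * 2 ^ k, ?_, ?_⟩
  · have h1 : k < 2 ^ k := Nat.lt_two_pow_self
    have h2 : 1 * 2 ^ k ≤ K * 2 ^ k := Nat.mul_le_mul_right _ hK
    omega
  · refine le_trans (ENNReal.ofReal_le_ofReal (Real.exp_le_exp.mpr ?_)) (h w e k hsw _ le_rfl)
    have hlog : Real.log ((K * 2 ^ k : ℕ) : ℝ) = Real.log K + k * Real.log 2 := by
      push_cast
      rw [Real.log_mul (by positivity) (by positivity), Real.log_pow]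
    rw [hlog]
    push_cast
    have h2k : (0 : ℝ) < 2 ^ k := by positivity
    have hlog2 : Real.log 2 < 1 := by
      have := Real.log_two_lt_d9
      linarith
    have hlogK : 0 ≤ Real.log K := Real.log_nonneg hK1
    have hM0 : (0 : ℝ) ≤ M := Nat.cast_nonneg M
    have hk0' : (0 : ℝ) ≤ k := Nat.cast_nonneg k
    have h3 : δ * Real.log K + 2 * M ≤ δ * k := by
      rw [div_le_iff₀ hδ] at hk0
      nlinarith
    have h4 : δ * (k * Real.log 2) ≤ δ * k := by
      apply mul_le_mul_of_nonneg_left _ hδ.le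
      nlinarith
    have h5 : δ * (Real.log K + k * Real.log 2) / 8 ≤ ((cnt w e k : ℝ) - M) / 4 := by
      nlinarith
    have h6 : 1 / (8 * (K : ℝ)) * δ * (K * 2 ^ k * (Real.log K + k * Real.log 2)) =
        2 ^ k * (δ * (Real.log K + k * Real.log 2) / 8) := by
      field_simp
    rw [h6]
    calc (2 : ℝ) ^ k * (δ * (Real.log K + k * Real.log 2) / 8)
        ≤ 2 ^ k * (((cnt w e k : ℝ) - M) / 4) := mul_le_mul_of_nonneg_left h5 h2k.le
      _ = _ := by ring

/-- **Theorem.** There are constants `c > 0` and `K, M`, the same for all the groups `G_w`, such that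
* if `w k ≠ e` and `w (k+1) = e` and the letter `e` occurs `m` times among `w 0, …, w (k-1)`, then
  `Fol_{G_w} (n) ≥ exp (2^k (m - M) / 4)` for all `n ≥ K 2^k`;
* hence `Fol_{G_w}` is strictly larger than exponential for every `w` that is not eventually
  constant;
* and if for infinitely many `k` one has `w k ≠ e`, `w (k+1) = e` and the letter `e` occurs at least
  `δ k` times before place `k`, then `Fol_{G_w} (n) ≥ exp (c δ n log n)` for infinitely many `n`. -/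
theorem result : ∃ c : ℝ, 0 < c ∧ ∃ K M : ℕ, 1 ≤ K ∧
    (∀ (w : ℕ → Fin 3) (e : Fin 3) (k : ℕ), Switch w e k → ∀ n : ℕ, K * 2 ^ k ≤ n →
      ENNReal.ofReal (Real.exp (2 ^ k * ((cnt w e k : ℝ) - M) / 4)) ≤
        (Fol (S w) n : ℝ≥0∞)) ∧
    (∀ w : ℕ → Fin 3, (¬ ∃ (i : Fin 3) (N : ℕ), ∀ n ≥ N, w n = i) →
      ¬ ExpBounded (Fol (S w))) ∧
    (∀ (w : ℕ → Fin 3) (e : Fin 3) (δ : ℝ), 0 < δ →
      (∃ᶠ k : ℕ in atTop, Switch w e k ∧ δ * (k : ℝ) ≤ (cnt w e k : ℝ)) →
      ∃ᶠ n : ℕ in atTop, ENNReal.ofReal (Real.exp (c * δ * (n * Real.log n))) ≤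
        (Fol (S w) n : ℝ≥0∞)) := by
  obtain ⟨K, M, hK, h⟩ := Fol_bound
  refine ⟨1 / (8 * K), by positivity, K, M, hK, h, fun w hw => FolnerSuperexp.result w hw,
    fun w e δ hδ hf => frequent K M hK h w e δ hδ hf⟩

end Pool.Agent.Results.MP_56119d_al.SwitchLevelBound
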